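import Mathlib
import Pool.Agent.H9.SqDefs
import Pool.Agent.H9.SqYes

set_option autoImplicit false

namespace Pool.Agent.Results.MP_104382_al.Both

open Pool.Agent.H9.Sq

/-- The open unit square is `SL₂(ℝ)`-paradoxical, but it is not paradoxical with respect to the
group `F` generated by `(1 2; 0 1)` and its transpose. -/
theorem result : IsParadoxical ⊤ Q ∧ ¬ IsParadoxical F Q :=
  main

end Pool.Agent.Results.MP_104382_al.Both
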